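import Mathlib
import Pool.Agent.Helper718.VB.Defs

/-!
# Virtual string links and virtual pure braids

The virtual braid group `VB n` (generators `sig i`, `rh i`, `i = 0, ..., n - 2`) is defined in
`Pool.Agent.Helper718.VB.Defs`. A virtual string link diagram is recorded by its Gauss diagram:
the classical crossings and the edges joining them; virtual crossings are not recorded, so that
virtual and mixed moves do not change the record. Edges may be subdivided by marked points
(`dot`).
-/

set_option autoImplicit false

namespace Pool.Agent.H297R3.SL

open Pool.Agent.Helper718.VB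

/-! ## Diagrams -/

/-- Names of edges. -/
abbrev Edge : Type := ℕ × ℕ

/-- The pieces a diagram is made of: a classical crossing with its sign and, for the over strand
and for the under strand, the incoming and the outgoing edge; or a marked point on a strand, with
the incoming and the outgoing edge. -/
inductive Piece
  | cross (positive : Bool) (overIn overOut underIn underOut : Edge)
  | dot (edgeIn edgeOut : Edge)

namespace Piece

/-- The edges which end at a piece. -/
def ins : Piece → List Edge
  | cross _ a _ c _ => [a, c]
  | dot a _ => [a]

/-- The edges which start at a piece. -/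
def outs : Piece → List Edge
  | cross _ _ b _ d => [b, d]
  | dot _ b => [b]

/-- The pairs of consecutive edges of the strands which pass through a piece. -/
def passages : Piece → List (Edge × Edge)
  | cross _ a b c d => [(a, b), (c, d)]
  | dot a b => [(a, b)]

/-- Renaming of edges. -/
def rename (g : Edge → Edge) : Piece → Piece
  | cross s a b c d => cross s (g a) (g b) (g c) (g d)
  | dot a b => dot (g a) (g b)

end Piece

/-- All edge ends at which an edge arrives at a piece. -/
def insOf (D : List Piece) : List Edge := D.flatMap Piece.ins

/-- All edge ends at which an edge departs from a piece. -/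
def outsOf (D : List Piece) : List Edge := D.flatMap Piece.outs

/-- Records of diagrams on `n` strands: the `i`-th point at the bottom is the start of the edge
`bot i`, the `i`-th point at the top is the end of the edge `top i`. -/
structure Diagram (n : ℕ) where
  /-- the first edges of the strands -/
  bot : Fin n → Edge
  /-- the edges which end at the top -/
  top : Fin n → Edge
  /-- the pieces -/
  pieces : List Piece

/-- The edge `b` follows the edge `a` on a strand. -/
def Next (D : List Piece) (a b : Edge) : Prop := ∃ p ∈ D, (a, b) ∈ p.passages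

/-- The record describes a virtual string link diagram: every edge starts exactly once and ends
exactly once, the strand which starts at the `i`-th point at the bottom ends at the `i`-th point
at the top, and every edge belongs to one of these strands (there are no closed components). -/
def IsStringLink {n : ℕ} (D : Diagram n) : Prop :=
  (insOf D.pieces ++ List.ofFn D.top).Nodup ∧
    (insOf D.pieces ++ List.ofFn D.top).Perm (outsOf D.pieces ++ List.ofFn D.bot) ∧
      (∀ i, Relation.ReflTransGen (Next D.pieces) (D.bot i) (D.top i)) ∧
        ∀ e ∈ insOf D.pieces ++ List.ofFn D.top, ∃ i,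
          Relation.ReflTransGen (Next D.pieces) (D.bot i) e

/-- Virtual string link diagrams on `n` strands. -/
abbrev StringLinkDiagram (n : ℕ) : Type := {D : Diagram n // IsStringLink D}

/-! ## Moves -/

/-- For a strand with three consecutive edges `x`, `y`, `z`: the edges at its first passage
(`first = true`) or at its second passage (`first = false`). -/
def seg (first : Bool) (x y z : Edge) : Edge × Edge := if first then (x, y) else (y, z)

/-- The crossing of sign `s` whose over strand has incoming and outgoing edge `o` and whose under
strand has incoming and outgoing edge `u`. -/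
def X (s : Bool) (o u : Edge × Edge) : Piece := Piece.cross s o.1 o.2 u.1 u.2

/-- A triangle as in the third Reidemeister move. There is a top strand with edges `t₁ t₂ t₃`,
a middle strand with edges `m₁ m₂ m₃` and a bottom strand with edges `b₁ b₂ b₃`. The crossings are
`a` (top over middle, sign `sa`), `b` (top over bottom, sign `sb`) and `c` (middle over bottom,
sign `sc`), where `true` stands for the sign `+1`. The side `δ` of `c` on which the top strand
passes and the signs determine the order of the crossings on the strands: on the top strand
`a` is first iff `δ sa sb sc = 1`, on the middle strand `a` is first iff `δ sa = 1`, and on the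
bottom strand `b` is first iff `δ sb = 1`. -/
def triangle (sa sb sc δ : Bool) (t₁ t₂ t₃ m₁ m₂ m₃ b₁ b₂ b₃ : Edge) : List Piece :=
  [X sa (seg ((δ == sa) == (sb == sc)) t₁ t₂ t₃) (seg (δ == sa) m₁ m₂ m₃),
   X sb (seg (!((δ == sa) == (sb == sc))) t₁ t₂ t₃) (seg (δ == sb) b₁ b₂ b₃),
   X sc (seg (!(δ == sa)) m₁ m₂ m₃) (seg (!(δ == sb)) b₁ b₂ b₃)]

/-- The generalized Reidemeister moves in terms of Gauss diagrams: bookkeeping moves (reordering
the list of pieces, renaming the edges, removing a marked point) and the three classical
Reidemeister moves, in all variants. (The virtual and mixed moves do not change the Gauss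
diagram.) In the first and second moves the crossings that disappear are replaced by marked
points. -/
inductive Move {n : ℕ} : Diagram n → Diagram n → Prop
  | reorder (bot top : Fin n → Edge) (D D' : List Piece) (h : D.Perm D') :
      Move ⟨bot, top, D⟩ ⟨bot, top, D'⟩
  | rename (g : Equiv.Perm Edge) (bot top : Fin n → Edge) (D : List Piece) :
      Move ⟨bot, top, D⟩ ⟨g ∘ bot, g ∘ top, D.map (Piece.rename g)⟩
  | removeDot (a b : Edge) (h : a ≠ b) (bot top : Fin n → Edge) (Γ : List Piece) :
      Move ⟨bot, top, Piece.dot a b :: Γ⟩
        ⟨(fun e => if e = b then a else e) ∘ bot, (fun e => if e = b then a else e) ∘ top,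
          Γ.map (Piece.rename fun e => if e = b then a else e)⟩
  | r1_over (s : Bool) (a b c : Edge) (bot top : Fin n → Edge) (Γ : List Piece) :
      Move ⟨bot, top, Piece.cross s a b b c :: Γ⟩
        ⟨bot, top, Piece.dot a b :: Piece.dot b c :: Γ⟩
  | r1_under (s : Bool) (a b c : Edge) (bot top : Fin n → Edge) (Γ : List Piece) :
      Move ⟨bot, top, Piece.cross s b c a b :: Γ⟩
        ⟨bot, top, Piece.dot a b :: Piece.dot b c :: Γ⟩
  | r2_parallel (s : Bool) (a b e c d f : Edge) (bot top : Fin n → Edge) (Γ : List Piece) :
      Move ⟨bot, top, Piece.cross s a b c d :: Piece.cross (!s) b e d f :: Γ⟩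
        ⟨bot, top, Piece.dot a b :: Piece.dot b e :: Piece.dot c d :: Piece.dot d f :: Γ⟩
  | r2_opposite (s : Bool) (a b e c d f : Edge) (bot top : Fin n → Edge) (Γ : List Piece) :
      Move ⟨bot, top, Piece.cross s a b d f :: Piece.cross (!s) b e c d :: Γ⟩
        ⟨bot, top, Piece.dot a b :: Piece.dot b e :: Piece.dot c d :: Piece.dot d f :: Γ⟩
  | r3 (sa sb sc : Bool) (t₁ t₂ t₃ m₁ m₂ m₃ b₁ b₂ b₃ : Edge) (bot top : Fin n → Edge)
      (Γ : List Piece) :
      Move ⟨bot, top, triangle sa sb sc true t₁ t₂ t₃ m₁ m₂ m₃ b₁ b₂ b₃ ++ Γ⟩
        ⟨bot, top, triangle sa sb sc false t₁ t₂ t₃ m₁ m₂ m₃ b₁ b₂ b₃ ++ Γ⟩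

/-- The set `vSL_n` of virtual string links: diagrams modulo the moves (all diagrams in between
are virtual string link diagrams; they need not be monotone). -/
def vSL (n : ℕ) : Type := Quot fun D D' : StringLinkDiagram n => Move D.1 D'.1

/-! ## Virtual pure braids -/

theorem swap_braid {α : Type*} [DecidableEq α] {a b c : α} (hab : a ≠ b) (hac : a ≠ c)
    (hbc : b ≠ c) : Equiv.swap a b * Equiv.swap b c * Equiv.swap a b =
      Equiv.swap b c * Equiv.swap a b * Equiv.swap b c := by
  rw [Equiv.swap_mul_swap_mul_swap hab hac]
  rw [Equiv.swap_comm a b, Equiv.swap_comm b c, Equiv.swap_mul_swap_mul_swap hbc.symm hac.symm]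
  rw [Equiv.swap_comm]

theorem swap_far {α : Type*} [DecidableEq α] {a b c d : α} (hac : a ≠ c) (had : a ≠ d)
    (hbc : b ≠ c) (hbd : b ≠ d) : Equiv.swap a b * Equiv.swap c d =
      Equiv.swap c d * Equiv.swap a b := by
  ext x
  simp only [Equiv.Perm.mul_apply]
  by_cases h1 : x = a
  · subst h1
    rw [Equiv.swap_apply_of_ne_of_ne hac had, Equiv.swap_apply_left,
      Equiv.swap_apply_of_ne_of_ne hbc hbd]
  by_cases h2 : x = b
  · subst h2
    rw [Equiv.swap_apply_of_ne_of_ne hbc hbd, Equiv.swap_apply_right,
      Equiv.swap_apply_of_ne_of_ne hac had]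
  rw [Equiv.swap_apply_of_ne_of_ne (a := a) (b := b) h1 h2]
  apply Equiv.swap_apply_of_ne_of_ne
  · by_cases h3 : x = c
    · subst h3; rw [Equiv.swap_apply_left]; exact had.symm
    by_cases h4 : x = d
    · subst h4; rw [Equiv.swap_apply_right]; exact hac.symm
    rw [Equiv.swap_apply_of_ne_of_ne h3 h4]; exact h1
  · by_cases h3 : x = c
    · subst h3; rw [Equiv.swap_apply_left]; exact hbd.symm
    by_cases h4 : x = d
    · subst h4; rw [Equiv.swap_apply_right]; exact hbc.symm
    rw [Equiv.swap_apply_of_ne_of_ne h3 h4]; exact h2

/-- The transposition of a generator `σ_{i+1}` or `ρ_{i+1}`. -/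
def genPerm {n : ℕ} : VGen n → Equiv.Perm (Fin n)
  | VGen.sigma i => Equiv.swap (posL i) (posR i)
  | VGen.rho i => Equiv.swap (posL i) (posR i)

theorem genPerm_braid {n : ℕ} (i j : Fin (n - 1)) (h : (j : ℕ) = i + 1) :
    Equiv.swap (posL i) (posR i) * Equiv.swap (posL j) (posR j) * Equiv.swap (posL i) (posR i) =
      Equiv.swap (posL j) (posR j) * Equiv.swap (posL i) (posR i) *
        Equiv.swap (posL j) (posR j) := by
  have e : posL j = posR i := Fin.ext h
  rw [e]
  apply swap_braid
  · intro h1; have := congrArg Fin.val h1; simp [posL, posR] at this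
  · intro h1; have := congrArg Fin.val h1; simp [posL, posR] at this; omega
  · intro h1; have := congrArg Fin.val h1; simp [posR] at this; omega

theorem genPerm_far {n : ℕ} (i j : Fin (n - 1)) (h : (i : ℕ) + 2 ≤ j ∨ (j : ℕ) + 2 ≤ i) :
    Equiv.swap (posL i) (posR i) * Equiv.swap (posL j) (posR j) =
      Equiv.swap (posL j) (posR j) * Equiv.swap (posL i) (posR i) := by
  apply swap_far <;> (intro h1; have := congrArg Fin.val h1; simp [posL, posR] at this; omega)

theorem genPerm_rel (n : ℕ) : ∀ r ∈ vrels n, FreeGroup.lift (genPerm (n := n)) r = 1 := by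
  rintro r ⟨u, v, h, rfl⟩
  rw [map_mul, map_inv, mul_inv_eq_one]
  cases h with
  | sigma_braid i j h => simp only [map_mul, FreeGroup.lift_apply_of, genPerm, genPerm_braid i j h]
  | sigma_comm i j h => simp only [map_mul, FreeGroup.lift_apply_of, genPerm, genPerm_far i j h]
  | rho_square i => simp [FreeGroup.lift_apply_of, genPerm]
  | rho_braid i j h => simp only [map_mul, FreeGroup.lift_apply_of, genPerm, genPerm_braid i j h]
  | rho_comm i j h => simp only [map_mul, FreeGroup.lift_apply_of, genPerm, genPerm_far i j h]
  | sigma_rho_comm i j h =>
    simp only [map_mul, FreeGroup.lift_apply_of, genPerm, genPerm_far i j h]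
  | mixed i j h => simp only [map_mul, FreeGroup.lift_apply_of, genPerm, genPerm_braid i j h]

/-- The natural homomorphism `VB_n → S_n`. -/
def permHom (n : ℕ) : VB n →* Equiv.Perm (Fin n) := PresentedGroup.toGroup (genPerm_rel n)

/-- The virtual pure braid group `vP_n`. -/
def vP (n : ℕ) : Subgroup (VB n) := (permHom n).ker

/-- The letters `σ_{i+1}`, `σ_{i+1}⁻¹`, `ρ_{i+1}` of virtual braid words on `n` strands. -/
inductive Letter (n : ℕ)
  | pos (i : Fin (n - 1))
  | neg (i : Fin (n - 1))
  | vir (i : Fin (n - 1))

/-- The virtual braid of a letter. -/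
def Letter.val {n : ℕ} : Letter n → VB n
  | pos i => sig i
  | neg i => (sig i)⁻¹
  | vir i => rh i

/-- The virtual braid represented by a word. -/
def toVB {n : ℕ} (w : List (Letter n)) : VB n := (w.map Letter.val).prod

/-- The strands that a letter at position `i` does not touch: they run straight from level `k` to
level `k + 1`. -/
def straight (n k i : ℕ) : List Piece :=
  ((List.range n).filter fun j => j ≠ i ∧ j ≠ i + 1).map fun j => Piece.dot (k, j) (k + 1, j)

/-- The part of the diagram between level `k` and level `k + 1`, where a letter of the word stands.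
The edge `(k, j)` is the edge at level `k` in position `j`. At `σ_{i+1}` the strand going from
position `i` to position `i + 1` passes over the other one, and the crossing is positive;
`σ_{i+1}⁻¹` is its mirror image; at `ρ_{i+1}` the two strands exchange their positions at a virtual
crossing, which is not recorded. -/
def layer (n k : ℕ) : Letter n → List Piece
  | Letter.pos i =>
      Piece.cross true (k, i) (k + 1, i + 1) (k, i + 1) (k + 1, i) :: straight n k i
  | Letter.neg i =>
      Piece.cross false (k, i + 1) (k + 1, i) (k, i) (k + 1, i + 1) :: straight n k i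
  | Letter.vir i =>
      Piece.dot (k, i) (k + 1, i + 1) :: Piece.dot (k, i + 1) (k + 1, i) :: straight n k i

/-- The layers of a word, starting at level `k`. -/
def layers (n : ℕ) : ℕ → List (Letter n) → List Piece
  | _, [] => []
  | k, l :: w => layer n k l ++ layers n (k + 1) w

/-- The monotone diagram of a braid word. -/
def braidDiagram {n : ℕ} (w : List (Letter n)) : Diagram n where
  bot j := (0, (j : ℕ))
  top j := (w.length, (j : ℕ))
  pieces := layers n 0 w

end Pool.Agent.H297R3.SL
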