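import Mathlib
import Pool.Agent.H297R3.SL.Defs

set_option autoImplicit false

namespace Pool.Agent.H297R3.SL

/-- Biquandle structure given by the two components of `S`. -/
structure Bq (X : Type) where
  A : X → X → X
  C : X → X → X
  A_inj : ∀ u, Function.Injective (A u)
  A_surj : ∀ u, Function.Surjective (A u)
  C_inj : ∀ v, Function.Injective (fun u => C u v)
  C_surj : ∀ v, Function.Surjective (fun u => C u v)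
  S_inj : ∀ u v u' v', A u v = A u' v' → C u v = C u' v' → u = u' ∧ v = v'
  S_surj : ∀ p q, ∃ u v, A u v = p ∧ C u v = q
  y1 : ∀ a b c, A (A a b) (A (C a b) c) = A a (A b c)
  y2 : ∀ a b c, C (A a b) (A (C a b) c) = A (C a (A b c)) (C b c)
  y3 : ∀ a b c, C (C a b) c = C (C a (A b c)) (C b c)
  r1 : ∀ u v, A u v = u ↔ C u v = v

namespace Bq

variable {X : Type} (B : Bq X)

/-- The relation of a crossing: over strand from `o` to `o'`, under strand from `u` to `u'`. -/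
def P (o u o' u' : X) : Prop := B.A u o = o' ∧ B.C u o = u'

theorem h1 (t1 m1 b1 t3 m3 b3 : X) :
    (∃ t2 m2 b2, B.P t1 m1 t2 m2 ∧ B.P t2 b1 t3 b2 ∧ B.P m2 b2 m3 b3) ↔
      (∃ t2 m2 b2, B.P t2 m2 t3 m3 ∧ B.P t1 b2 t2 b3 ∧ B.P m1 b1 m2 b2) := by
  have y1 := B.y1 b1 m1 t1
  have y2 := B.y2 b1 m1 t1
  have y3 := B.y3 b1 m1 t1
  constructor
  · rintro ⟨t2, m2, b2, ⟨rfl, rfl⟩, ⟨rfl, rfl⟩, ⟨rfl, rfl⟩⟩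
    exact ⟨_, _, _, ⟨y1, y2⟩, ⟨rfl, y3⟩, ⟨rfl, rfl⟩⟩
  · rintro ⟨t2, m2, b2, ⟨rfl, rfl⟩, ⟨rfl, rfl⟩, ⟨rfl, rfl⟩⟩
    exact ⟨_, _, _, ⟨rfl, rfl⟩, ⟨y1.symm, rfl⟩, ⟨y2.symm, y3.symm⟩⟩

theorem h2 (t1 m1 b1 t3 m3 b3 : X) :
    (∃ t2 m2 b2, B.P t3 m3 t2 m2 ∧ B.P t1 b1 t2 b2 ∧ B.P m1 b2 m2 b3) ↔
      (∃ t2 m2 b2, B.P t2 m2 t1 m1 ∧ B.P t2 b2 t3 b3 ∧ B.P m2 b1 m3 b2) := by
  constructor
  · rintro ⟨t2, m2, b2, ⟨ha1, ha2⟩, ⟨hb1, hb2⟩, ⟨hc1, hc2⟩⟩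
    obtain ⟨m2', t2', e1, e2⟩ := B.S_surj t1 m1
    have y1 := B.y1 b1 m2' t2'
    have y2 := B.y2 b1 m2' t2'
    have y3 := B.y3 b1 m2' t2'
    rw [e1, hb1] at y1
    rw [e1, hb2, e2, hc1] at y2
    rw [e1, hb2, e2, hc2] at y3
    obtain ⟨f1, f2⟩ := B.S_inj _ _ _ _ (ha1.trans y1.symm) (ha2.trans y2.symm)
    exact ⟨t2', m2', B.C b1 m2', ⟨e1, e2⟩, ⟨f2.symm, y3⟩, ⟨f1.symm, rfl⟩⟩
  · rintro ⟨t2, m2, b2, ⟨ha1, ha2⟩, ⟨hb1, hb2⟩, ⟨hc1, hc2⟩⟩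
    have y1 := B.y1 b1 m2 t2
    have y2 := B.y2 b1 m2 t2
    have y3 := B.y3 b1 m2 t2
    rw [hc1, hc2, hb1, ha1] at y1
    rw [hc1, hc2, hb1, ha1, ha2] at y2
    rw [hc2, hb2, ha1, ha2] at y3
    exact ⟨_, _, _, ⟨rfl, rfl⟩, ⟨y1.symm, rfl⟩, ⟨y2.symm, y3.symm⟩⟩

theorem h3 (t1 m1 b1 t3 m3 b3 : X) :
    (∃ t2 m2 b2, B.P t2 m1 t3 m2 ∧ B.P t1 b1 t2 b2 ∧ B.P m3 b3 m2 b2) ↔
      (∃ t2 m2 b2, B.P t1 m2 t2 m3 ∧ B.P t2 b2 t3 b3 ∧ B.P m2 b2 m1 b1) := by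
  constructor
  · rintro ⟨t2, m2, b2, ⟨ha1, ha2⟩, ⟨hb1, hb2⟩, ⟨hc1, hc2⟩⟩
    obtain ⟨b2', m2', e1, e2⟩ := B.S_surj m1 b1
    have y1 := B.y1 b2' m2' t1
    have y2 := B.y2 b2' m2' t1
    have y3 := B.y3 b2' m2' t1
    rw [e1, e2, hb1, ha1] at y1
    rw [e1, e2, hb1, ha2] at y2
    rw [e2, hb2] at y3
    obtain ⟨f1, f2⟩ := B.S_inj _ _ _ _ (hc1.trans y2) (hc2.trans y3)
    exact ⟨B.A m2' t1, m2', b2', ⟨rfl, f2.symm⟩, ⟨y1.symm, f1.symm⟩, ⟨e1, e2⟩⟩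
  · rintro ⟨t2, m2, b2, ⟨ha1, ha2⟩, ⟨hb1, hb2⟩, ⟨hc1, hc2⟩⟩
    have y1 := B.y1 b2 m2 t1
    have y2 := B.y2 b2 m2 t1
    have y3 := B.y3 b2 m2 t1
    rw [hc1, hc2, ha1, hb1] at y1
    rw [hc1, hc2, ha1, ha2, hb2] at y2
    rw [hc2, ha1, ha2, hb2] at y3
    exact ⟨_, _, _, ⟨y1, rfl⟩, ⟨rfl, rfl⟩, ⟨y2.symm, y3.symm⟩⟩

theorem h4 (t1 m1 b1 t3 m3 b3 : X) :
    (∃ t2 m2 b2, B.P t2 m1 t3 m2 ∧ B.P t2 b3 t1 b2 ∧ B.P m2 b1 m3 b2) ↔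
      (∃ t2 m2 b2, B.P t1 m2 t2 m3 ∧ B.P t3 b2 t2 b1 ∧ B.P m1 b2 m2 b3) := by
  constructor
  · rintro ⟨t2, m2, b2, ⟨ha1, ha2⟩, ⟨hb1, hb2⟩, ⟨hc1, hc2⟩⟩
    obtain ⟨b2', e⟩ := B.C_surj t3 b1
    simp only at e
    have y1 := B.y1 b2' m1 t2
    have y2 := B.y2 b2' m1 t2
    have y3 := B.y3 b2' m1 t2
    rw [ha1] at y1
    rw [ha1, e, ha2, hc1] at y2
    rw [ha1, e, ha2, hc2, ← hb2] at y3
    have f1 := B.C_inj t2 y3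
    rw [f1, hb1] at y1 y2
    exact ⟨_, _, b2', ⟨y1, y2⟩, ⟨rfl, e⟩, ⟨rfl, f1⟩⟩
  · rintro ⟨t2, m2, b2, ⟨ha1, ha2⟩, ⟨hb1, hb2⟩, ⟨hc1, hc2⟩⟩
    obtain ⟨t2', e⟩ := B.A_surj m1 t3
    have y1 := B.y1 b2 m1 t2'
    have y2 := B.y2 b2 m1 t2'
    have y3 := B.y3 b2 m1 t2'
    rw [hc1, hc2, e, hb1, ← ha1] at y1
    have f1 := B.A_inj m2 y1
    rw [hc1, hc2, e, hb2, f1, ha2] at y2
    rw [hc2, e, hb2] at y3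
    exact ⟨t2', _, _, ⟨e, rfl⟩, ⟨f1, y3⟩, ⟨y2.symm, rfl⟩⟩

/-- The relation of a crossing of sign `s`. -/
def K (s : Bool) (oi oo ui uo : X) : Prop := if s then B.P oo uo oi ui else B.P oi ui oo uo

/-- the piece is coloured correctly -/
def Sat (f : Edge → X) : Piece → Prop
  | Piece.cross s a b c d => B.K s (f a) (f b) (f c) (f d)
  | Piece.dot a b => f a = f b

end Bq

end Pool.Agent.H297R3.SL
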