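import Mathlib
import Pool.Agent.H297R3.SL.Bq

set_option autoImplicit false

namespace Pool.Agent.H297R3.SL

namespace Bq

variable {X : Type} (B : Bq X) {n : ℕ}

/-- The colourings of a diagram, as a relation between the colours at the bottom and at the top. -/
def Col (D : Diagram n) (x y : Fin n → X) : Prop :=
  ∃ f : Edge → X, (∀ p ∈ D.pieces, B.Sat f p) ∧ (∀ i, f (D.bot i) = x i) ∧ ∀ i, f (D.top i) = y i

theorem sat_congr {f g : Edge → X} {p : Piece} (h1 : ∀ e ∈ p.ins, f e = g e)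
    (h2 : ∀ e ∈ p.outs, f e = g e) (h : B.Sat f p) : B.Sat g p := by
  cases p with
  | cross s a b c d =>
    simp only [Piece.ins, Piece.outs, List.mem_cons, List.not_mem_nil, or_false,
      forall_eq_or_imp, forall_eq] at h1 h2
    simp only [Sat] at h ⊢
    rw [← h1.1, ← h1.2, ← h2.1, ← h2.2]
    exact h
  | dot a b =>
    simp only [Piece.ins, Piece.outs, List.mem_cons, List.not_mem_nil, or_false,
      forall_eq] at h1 h2
    simp only [Sat] at h ⊢
    rw [← h1, ← h2]
    exact h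

theorem sat_rename (g : Edge → Edge) (f : Edge → X) (p : Piece) :
    B.Sat f (p.rename g) ↔ B.Sat (f ∘ g) p := by
  cases p <;> rfl

theorem mem_ins {D : List Piece} {p : Piece} {e : Edge} (hp : p ∈ D) (he : e ∈ p.ins) :
    e ∈ insOf D := List.mem_flatMap.mpr ⟨p, hp, he⟩

theorem mem_outs {D : List Piece} {p : Piece} {e : Edge} (hp : p ∈ D) (he : e ∈ p.outs) :
    e ∈ outsOf D := List.mem_flatMap.mpr ⟨p, hp, he⟩

/-- local replacement -/
theorem col_local {L L' Γ : List Piece} {bot top : Fin n → Edge} (I : List Edge)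
    (hi : ∀ e ∈ I, e ∉ insOf Γ) (ho : ∀ e ∈ I, e ∉ outsOf Γ) (hb : ∀ e ∈ I, ∀ i, bot i ≠ e)
    (ht : ∀ e ∈ I, ∀ i, top i ≠ e)
    (h : ∀ f : Edge → X, (∀ p ∈ L, B.Sat f p) →
      ∃ f' : Edge → X, (∀ e, e ∉ I → f' e = f e) ∧ ∀ p ∈ L', B.Sat f' p)
    {x y : Fin n → X} (hc : B.Col ⟨bot, top, L ++ Γ⟩ x y) : B.Col ⟨bot, top, L' ++ Γ⟩ x y := by
  obtain ⟨f, h1, h2, h3⟩ := hc
  obtain ⟨f', h4, h5⟩ := h f (fun p hp => h1 p (List.mem_append_left _ hp))
  refine ⟨f', ?_, ?_, ?_⟩
  · intro p hp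
    rcases List.mem_append.mp hp with hp | hp
    · exact h5 p hp
    · refine B.sat_congr ?_ ?_ (h1 p (List.mem_append_right _ hp))
      · intro e he
        exact (h4 e fun hI => hi e hI (mem_ins hp he)).symm
      · intro e he
        exact (h4 e fun hI => ho e hI (mem_outs hp he)).symm
  · intro i
    show f' (bot i) = _
    rw [h4 _ fun hI => hb _ hI i rfl]
    exact h2 i
  · intro i
    show f' (top i) = _
    rw [h4 _ fun hI => ht _ hI i rfl]
    exact h3 i

theorem insOf_append (D D' : List Piece) : insOf (D ++ D') = insOf D ++ insOf D' := by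
  simp [insOf]

theorem outsOf_append (D D' : List Piece) : outsOf (D ++ D') = outsOf D ++ outsOf D' := by
  simp [outsOf]

/-- edges which occur in the local part as an incoming and as an outgoing edge do not occur
elsewhere -/
theorem inner_away {L Γ : List Piece} {bot top : Fin n → Edge}
    (hD : IsStringLink (⟨bot, top, L ++ Γ⟩ : Diagram n)) {e : Edge} (h1 : e ∈ insOf L)
    (h2 : e ∈ outsOf L) : e ∉ insOf Γ ∧ e ∉ outsOf Γ ∧ (∀ i, bot i ≠ e) ∧ ∀ i, top i ≠ e := by
  obtain ⟨hn, hp, _⟩ := hD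
  simp only at hn hp
  have hn2 := hp.nodup_iff.mp hn
  rw [insOf_append, List.append_assoc, List.nodup_append] at hn
  rw [outsOf_append, List.append_assoc, List.nodup_append] at hn2
  refine ⟨?_, ?_, ?_, ?_⟩
  · intro h
    exact hn.2.2 e h1 e (List.mem_append_left _ h) rfl
  · intro h
    exact hn2.2.2 e h2 e (List.mem_append_left _ h) rfl
  · intro i h
    exact hn2.2.2 e h2 e (List.mem_append_right _ (by rw [List.mem_ofFn]; exact ⟨i, h⟩)) rfl
  · intro i h
    exact hn.2.2 e h1 e (List.mem_append_right _ (by rw [List.mem_ofFn]; exact ⟨i, h⟩)) rfl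

theorem nodup_local {L Γ : List Piece} {bot top : Fin n → Edge}
    (hD : IsStringLink (⟨bot, top, L ++ Γ⟩ : Diagram n)) :
    (insOf L).Nodup ∧ (outsOf L).Nodup := by
  obtain ⟨hn, hp, _⟩ := hD
  simp only at hn hp
  have hn2 := hp.nodup_iff.mp hn
  rw [insOf_append, List.append_assoc, List.nodup_append] at hn
  rw [outsOf_append, List.append_assoc, List.nodup_append] at hn2
  exact ⟨hn.1, hn2.1⟩

/-- the local principle for a whole list of inner edges -/
theorem col_local' {L L' Γ : List Piece} {bot top : Fin n → Edge} (I : List Edge)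
    (hD : IsStringLink (⟨bot, top, L ++ Γ⟩ : Diagram n))
    (hI : ∀ e ∈ I, e ∈ insOf L ∧ e ∈ outsOf L)
    (h : ∀ f : Edge → X, (∀ p ∈ L, B.Sat f p) →
      ∃ f' : Edge → X, (∀ e, e ∉ I → f' e = f e) ∧ ∀ p ∈ L', B.Sat f' p)
    {x y : Fin n → X} (hc : B.Col ⟨bot, top, L ++ Γ⟩ x y) : B.Col ⟨bot, top, L' ++ Γ⟩ x y := by
  refine B.col_local I ?_ ?_ ?_ ?_ h hc
  · exact fun e he => (inner_away hD (hI e he).1 (hI e he).2).1
  · exact fun e he => (inner_away hD (hI e he).1 (hI e he).2).2.1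
  · exact fun e he => (inner_away hD (hI e he).1 (hI e he).2).2.2.1
  · exact fun e he => (inner_away hD (hI e he).1 (hI e he).2).2.2.2

/-- first move, over: the colour does not change -/
theorem r1o (s : Bool) {a b c : X} (h : B.K s a b b c) : a = c := by
  unfold K P at h
  cases s
  · simp only [Bool.false_eq_true, if_false] at h
    -- A b a = b, C b a = c
    have := (B.r1 b a).mp h.1
    rw [← h.2, this]
  · simp only [if_true] at h
    -- A c b = a, C c b = b
    have := (B.r1 c b).mpr h.2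
    rw [← h.1, this]

theorem r1o_ex (s : Bool) (a : X) : ∃ b, B.K s a b b a := by
  unfold K P
  cases s
  · simp only [Bool.false_eq_true, if_false]
    obtain ⟨b, hb⟩ := B.C_surj a a
    exact ⟨b, (B.r1 b a).mpr hb, hb⟩
  · simp only [if_true]
    obtain ⟨b, hb⟩ := B.A_surj a a
    exact ⟨b, hb, (B.r1 a b).mp hb⟩

theorem r1u (s : Bool) {a b c : X} (h : B.K s b c a b) : a = c := by
  unfold K P at h
  cases s
  · simp only [Bool.false_eq_true, if_false] at h
    -- A a b = c, C a b = b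
    have := (B.r1 a b).mpr h.2
    rw [← h.1, this]
  · simp only [if_true] at h
    -- A b c = b, C b c = a
    have := (B.r1 b c).mp h.1
    rw [← h.2, this]

theorem r1u_ex (s : Bool) (a : X) : ∃ b, B.K s b a a b := by
  unfold K P
  cases s
  · simp only [Bool.false_eq_true, if_false]
    obtain ⟨b, hb⟩ := B.A_surj a a
    exact ⟨b, hb, (B.r1 a b).mp hb⟩
  · simp only [if_true]
    obtain ⟨b, hb⟩ := B.C_surj a a
    exact ⟨b, (B.r1 b a).mpr hb, hb⟩

/-- second move, parallel -/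
theorem r2p (s : Bool) {a b c d e f : X} (h1 : B.K s a b c d) (h2 : B.K (!s) b e d f) :
    a = e ∧ c = f := by
  unfold K P at h1 h2
  cases s
  · simp only [Bool.false_eq_true, if_false, Bool.not_false, if_true] at h1 h2
    obtain ⟨h3, h4⟩ := B.S_inj _ _ _ _ (h1.1.trans h2.1.symm) (h1.2.trans h2.2.symm)
    exact ⟨h4, h3⟩
  · simp only [Bool.false_eq_true, if_false, Bool.not_true, if_true] at h1 h2
    exact ⟨h1.1.symm.trans h2.1, h1.2.symm.trans h2.2⟩

theorem r2p_ex (s : Bool) (a c : X) : ∃ b d, B.K s a b c d ∧ B.K (!s) b a d c := by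
  unfold K P
  cases s
  · simp only [Bool.false_eq_true, if_false, Bool.not_false, if_true]
    exact ⟨_, _, ⟨rfl, rfl⟩, ⟨rfl, rfl⟩⟩
  · simp only [Bool.false_eq_true, if_false, Bool.not_true, if_true]
    obtain ⟨d, b, h1, h2⟩ := B.S_surj a c
    exact ⟨b, d, ⟨h1, h2⟩, ⟨h1, h2⟩⟩

/-- second move, opposite: cross s a b d f :: cross (!s) b e c d -/
theorem r2o (s : Bool) {a b c d e f : X} (h1 : B.K s a b d f) (h2 : B.K (!s) b e c d) :
    a = e ∧ c = f := by
  unfold K P at h1 h2
  cases s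
  · simp only [Bool.false_eq_true, if_false, Bool.not_false, if_true] at h1 h2
    -- A d a = b, C d a = f ; A d e = b, C d e = c
    have h3 := B.A_inj d (h1.1.trans h2.1.symm)
    subst h3
    exact ⟨rfl, h2.2.symm.trans h1.2⟩
  · simp only [Bool.false_eq_true, if_false, Bool.not_true, if_true] at h1 h2
    -- A f b = a, C f b = d ; A c b = e, C c b = d
    have h3 := B.C_inj b (h1.2.trans h2.2.symm)
    subst h3
    exact ⟨h1.1.symm.trans h2.1, rfl⟩

theorem r2o_ex (s : Bool) (a c : X) : ∃ b d, B.K s a b d c ∧ B.K (!s) b a c d := by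
  unfold K P
  cases s
  · simp only [Bool.false_eq_true, if_false, Bool.not_false, if_true]
    obtain ⟨d, hd⟩ := B.C_surj a c
    exact ⟨_, d, ⟨rfl, hd⟩, ⟨rfl, hd⟩⟩
  · simp only [Bool.false_eq_true, if_false, Bool.not_true, if_true]
    obtain ⟨b, hb⟩ := B.A_surj c a
    exact ⟨b, _, ⟨hb, rfl⟩, ⟨hb, rfl⟩⟩

/-- The triangle relation. -/
def Tri (sa sb sc δ : Bool) (t1 t3 m1 m3 b1 b3 : X) : Prop := ∃ t2 m2 b2 : X,
  B.K sa (if (δ == sa) == (sb == sc) then t1 else t2) (if (δ == sa) == (sb == sc) then t2 else t3)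
    (if δ == sa then m1 else m2) (if δ == sa then m2 else m3) ∧
  B.K sb (if !((δ == sa) == (sb == sc)) then t1 else t2)
    (if !((δ == sa) == (sb == sc)) then t2 else t3)
    (if δ == sb then b1 else b2) (if δ == sb then b2 else b3) ∧
  B.K sc (if !(δ == sa) then m1 else m2) (if !(δ == sa) then m2 else m3)
    (if !(δ == sb) then b1 else b2) (if !(δ == sb) then b2 else b3)

theorem tri_iff (sa sb sc : Bool) (t1 t3 m1 m3 b1 b3 : X) :
    B.Tri sa sb sc true t1 t3 m1 m3 b1 b3 ↔ B.Tri sa sb sc false t1 t3 m1 m3 b1 b3 := by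
  have e1 : (true == false) = false := rfl
  have e2 : (false == true) = false := rfl
  unfold Tri K
  cases sa <;> cases sb <;> cases sc <;>
    simp only [beq_self_eq_true, Bool.not_true, Bool.not_false, Bool.false_eq_true, if_true,
      if_false, e1, e2]
  · exact (B.h1 t1 m1 b1 t3 m3 b3).symm
  · exact (B.h3 t1 m1 b1 t3 m3 b3).symm
  · exact (B.h4 t1 m1 b1 t3 m3 b3).symm
  · exact (B.h2 t3 m3 b3 t1 m1 b1).symm
  · exact (B.h2 t1 m1 b1 t3 m3 b3).symm
  · exact (B.h4 t3 m3 b3 t1 m1 b1).symm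
  · exact (B.h3 t3 m3 b3 t1 m1 b1).symm
  · exact (B.h1 t3 m3 b3 t1 m1 b1).symm

end Bq

end Pool.Agent.H297R3.SL
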