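import Mathlib
import Pool.Agent.H297R3.SL.Inv

set_option autoImplicit false

namespace Pool.Agent.H297R3.SL

/-- a triangle with given orders -/
def genTri (sa sb sc T M B : Bool) (t₁ t₂ t₃ m₁ m₂ m₃ b₁ b₂ b₃ : Edge) : List Piece :=
  [X sa (seg T t₁ t₂ t₃) (seg M m₁ m₂ m₃),
   X sb (seg (!T) t₁ t₂ t₃) (seg B b₁ b₂ b₃),
   X sc (seg (!M) m₁ m₂ m₃) (seg (!B) b₁ b₂ b₃)]

theorem genTri_ins (sa sb sc T M B : Bool) (t₁ t₂ t₃ m₁ m₂ m₃ b₁ b₂ b₃ : Edge) :
    (insOf (genTri sa sb sc T M B t₁ t₂ t₃ m₁ m₂ m₃ b₁ b₂ b₃)).Perm
      [t₁, t₂, m₁, m₂, b₁, b₂] := by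
  rw [List.perm_iff_count]
  intro e
  cases T <;> cases M <;> cases B <;>
    simp only [genTri, insOf, List.flatMap_cons, List.flatMap_nil, Piece.ins, X, seg, Bool.not_true,
      Bool.not_false, if_true, if_false, Bool.false_eq_true, List.append_nil, List.cons_append,
      List.nil_append, List.count_cons, List.count_nil] <;> ring

theorem genTri_outs (sa sb sc T M B : Bool) (t₁ t₂ t₃ m₁ m₂ m₃ b₁ b₂ b₃ : Edge) :
    (outsOf (genTri sa sb sc T M B t₁ t₂ t₃ m₁ m₂ m₃ b₁ b₂ b₃)).Perm
      [t₂, t₃, m₂, m₃, b₂, b₃] := by
  rw [List.perm_iff_count]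
  intro e
  cases T <;> cases M <;> cases B <;>
    simp only [genTri, outsOf, List.flatMap_cons, List.flatMap_nil, Piece.outs, X, seg,
      Bool.not_true,
      Bool.not_false, if_true, if_false, Bool.false_eq_true, List.append_nil, List.cons_append,
      List.nil_append, List.count_cons, List.count_nil] <;> ring

namespace Bq

variable {X : Type} (B : Bq X) {n : ℕ}

theorem f_seg (f : Edge → X) (c : Bool) (x y z : Edge) :
    f (seg c x y z).1 = (if c then f x else f y) ∧ f (seg c x y z).2 = if c then f y else f z := by
  cases c <;> simp [seg]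

theorem sat_tri (f : Edge → X) (sa sb sc δ : Bool) (t₁ t₂ t₃ m₁ m₂ m₃ b₁ b₂ b₃ : Edge) :
    (∀ p ∈ triangle sa sb sc δ t₁ t₂ t₃ m₁ m₂ m₃ b₁ b₂ b₃, B.Sat f p) ↔
  B.K sa (if (δ == sa) == (sb == sc) then f t₁ else f t₂)
    (if (δ == sa) == (sb == sc) then f t₂ else f t₃)
    (if δ == sa then f m₁ else f m₂) (if δ == sa then f m₂ else f m₃) ∧
  B.K sb (if !((δ == sa) == (sb == sc)) then f t₁ else f t₂)
    (if !((δ == sa) == (sb == sc)) then f t₂ else f t₃)
    (if δ == sb then f b₁ else f b₂) (if δ == sb then f b₂ else f b₃) ∧
  B.K sc (if !(δ == sa) then f m₁ else f m₂) (if !(δ == sa) then f m₂ else f m₃)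
    (if !(δ == sb) then f b₁ else f b₂) (if !(δ == sb) then f b₂ else f b₃) := by
  simp only [triangle, SL.X, List.mem_cons, List.not_mem_nil, or_false, forall_eq_or_imp,
    forall_eq, Sat, (f_seg f _ _ _ _).1, (f_seg f _ _ _ _).2]

theorem r3_local (sa sb sc δ : Bool) (t₁ t₂ t₃ m₁ m₂ m₃ b₁ b₂ b₃ : Edge)
    {bot top : Fin n → Edge} {Γ : List Piece}
    (hD : IsStringLink (⟨bot, top, triangle sa sb sc δ t₁ t₂ t₃ m₁ m₂ m₃ b₁ b₂ b₃ ++ Γ⟩ :
      Diagram n)) {x y : Fin n → X}
    (hc : B.Col ⟨bot, top, triangle sa sb sc δ t₁ t₂ t₃ m₁ m₂ m₃ b₁ b₂ b₃ ++ Γ⟩ x y) :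
    B.Col ⟨bot, top, triangle sa sb sc (!δ) t₁ t₂ t₃ m₁ m₂ m₃ b₁ b₂ b₃ ++ Γ⟩ x y := by
  have hins := genTri_ins sa sb sc ((δ == sa) == (sb == sc)) (δ == sa) (δ == sb)
    t₁ t₂ t₃ m₁ m₂ m₃ b₁ b₂ b₃
  have houts := genTri_outs sa sb sc ((δ == sa) == (sb == sc)) (δ == sa) (δ == sb)
    t₁ t₂ t₃ m₁ m₂ m₃ b₁ b₂ b₃
  obtain ⟨n1, n2⟩ := nodup_local hD
  have n1' := hins.nodup_iff.mp n1
  have n2' := houts.nodup_iff.mp n2
  simp only [List.nodup_cons, List.mem_cons, List.not_mem_nil, or_false, not_or,
    not_false_eq_true, List.nodup_nil, and_true] at n1' n2'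
  obtain ⟨⟨a1, a2, a3, a4, a5⟩, ⟨a6, a7, a8, a9⟩, ⟨a10, a11, a12⟩, ⟨a13, a14⟩, a15⟩ := n1'
  obtain ⟨⟨c1, c2, c3, c4, c5⟩, ⟨c6, c7, c8, c9⟩, ⟨c10, c11, c12⟩, ⟨c13, c14⟩, c15⟩ := n2'
  refine B.col_local' [t₂, m₂, b₂] hD ?_ ?_ hc
  · intro e he
    constructor
    · apply hins.mem_iff.mpr
      simp only [List.mem_cons, List.not_mem_nil, or_false] at he ⊢
      tauto
    · apply houts.mem_iff.mpr
      simp only [List.mem_cons, List.not_mem_nil, or_false] at he ⊢
      tauto
  · intro f hf
    rw [sat_tri] at hf
    have hT : B.Tri sa sb sc δ (f t₁) (f t₃) (f m₁) (f m₃) (f b₁) (f b₃) := ⟨_, _, _, hf⟩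
    have hT' : B.Tri sa sb sc (!δ) (f t₁) (f t₃) (f m₁) (f m₃) (f b₁) (f b₃) := by
      cases δ
      · exact (B.tri_iff _ _ _ _ _ _ _ _ _).mpr hT
      · exact (B.tri_iff _ _ _ _ _ _ _ _ _).mp hT
    obtain ⟨v1, v2, v3, hv⟩ := hT'
    refine ⟨Function.update (Function.update (Function.update f t₂ v1) m₂ v2) b₂ v3, ?_, ?_⟩
    · intro e he
      simp only [List.mem_cons, List.not_mem_nil, or_false, not_or] at he
      rw [Function.update_of_ne he.2.2, Function.update_of_ne he.2.1, Function.update_of_ne he.1]
    · rw [sat_tri]
      have g1 : Function.update (Function.update (Function.update f t₂ v1) m₂ v2) b₂ v3 t₁ = f t₁ := by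
        rw [Function.update_of_ne a5, Function.update_of_ne a3, Function.update_of_ne a1]
      have g2 : Function.update (Function.update (Function.update f t₂ v1) m₂ v2) b₂ v3 t₂ = v1 := by
        rw [Function.update_of_ne a9, Function.update_of_ne a7, Function.update_self]
      have g3 : Function.update (Function.update (Function.update f t₂ v1) m₂ v2) b₂ v3 t₃ = f t₃ := by
        rw [Function.update_of_ne c8, Function.update_of_ne c6,
          Function.update_of_ne (Ne.symm c1)]
      have g4 : Function.update (Function.update (Function.update f t₂ v1) m₂ v2) b₂ v3 m₁ = f m₁ := by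
        rw [Function.update_of_ne a12, Function.update_of_ne a10,
          Function.update_of_ne (Ne.symm a6)]
      have g5 : Function.update (Function.update (Function.update f t₂ v1) m₂ v2) b₂ v3 m₂ = v2 := by
        rw [Function.update_of_ne a14, Function.update_self]
      have g6 : Function.update (Function.update (Function.update f t₂ v1) m₂ v2) b₂ v3 m₃ = f m₃ := by
        rw [Function.update_of_ne c13, Function.update_of_ne (Ne.symm c10),
          Function.update_of_ne (Ne.symm c3)]
      have g7 : Function.update (Function.update (Function.update f t₂ v1) m₂ v2) b₂ v3 b₁ = f b₁ := by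
        rw [Function.update_of_ne a15, Function.update_of_ne (Ne.symm a13),
          Function.update_of_ne (Ne.symm a8)]
      have g8 : Function.update (Function.update (Function.update f t₂ v1) m₂ v2) b₂ v3 b₂ = v3 := by
        rw [Function.update_self]
      have g9 : Function.update (Function.update (Function.update f t₂ v1) m₂ v2) b₂ v3 b₃ = f b₃ := by
        rw [Function.update_of_ne (Ne.symm c15), Function.update_of_ne (Ne.symm c12),
          Function.update_of_ne (Ne.symm c5)]
      rw [g1, g2, g3, g4, g5, g6, g7, g8, g9]
      exact hv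

theorem col_move {D D' : Diagram n} (h : Move D D') (hD : IsStringLink D) (hD' : IsStringLink D')
    (x y : Fin n → X) : B.Col D x y ↔ B.Col D' x y := by
  cases h with
  | reorder bot top D D' h =>
    constructor
    · rintro ⟨f, h1, h2, h3⟩
      exact ⟨f, fun p hp => h1 p (h.mem_iff.mpr hp), h2, h3⟩
    · rintro ⟨f, h1, h2, h3⟩
      exact ⟨f, fun p hp => h1 p (h.mem_iff.mp hp), h2, h3⟩
  | rename g bot top D =>
    constructor
    · rintro ⟨f, h1, h2, h3⟩
      refine ⟨f ∘ g.symm, ?_, ?_, ?_⟩
      · intro p hp
        obtain ⟨q, hq, rfl⟩ := List.mem_map.mp hp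
        rw [sat_rename]
        have : (f ∘ g.symm) ∘ g = f := by funext e; simp
        rw [this]
        exact h1 q hq
      · intro i
        show f (g.symm (g (bot i))) = _
        rw [Equiv.symm_apply_apply]
        exact h2 i
      · intro i
        show f (g.symm (g (top i))) = _
        rw [Equiv.symm_apply_apply]
        exact h3 i
    · rintro ⟨f, h1, h2, h3⟩
      refine ⟨f ∘ g, ?_, h2, h3⟩
      intro p hp
      rw [← sat_rename]
      exact h1 _ (List.mem_map_of_mem hp)
  | removeDot a b hab bot top Γ =>
    constructor
    · rintro ⟨f, h1, h2, h3⟩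
      have hfab : f a = f b := h1 (Piece.dot a b) (List.mem_cons_self ..)
      have hf : f ∘ (fun e => if e = b then a else e) = f := by
        funext e
        simp only [Function.comp]
        split_ifs with he
        · rw [he, hfab]
        · rfl
      refine ⟨f, ?_, ?_, ?_⟩
      · intro p hp
        obtain ⟨q, hq, rfl⟩ := List.mem_map.mp hp
        rw [sat_rename, hf]
        exact h1 q (List.mem_cons_of_mem _ hq)
      · intro i
        have := congrFun hf (bot i)
        simp only [Function.comp] at this ⊢
        rw [this]
        exact h2 i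
      · intro i
        have := congrFun hf (top i)
        simp only [Function.comp] at this ⊢
        rw [this]
        exact h3 i
    · rintro ⟨f, h1, h2, h3⟩
      refine ⟨f ∘ (fun e => if e = b then a else e), ?_, h2, h3⟩
      intro p hp
      rcases List.mem_cons.mp hp with rfl | hp
      · simp [Sat, hab]
      · rw [← sat_rename]
        exact h1 _ (List.mem_map_of_mem hp)
  | r1_over s a b c bot top Γ =>
    have e1 : Piece.cross s a b b c :: Γ = [Piece.cross s a b b c] ++ Γ := rfl
    have e2 : Piece.dot a b :: Piece.dot b c :: Γ = [Piece.dot a b, Piece.dot b c] ++ Γ := rfl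
    rw [e1] at hD ⊢
    rw [e2] at hD' ⊢
    obtain ⟨n1, n2⟩ := nodup_local hD
    simp [insOf, Piece.ins] at n1
    simp [outsOf, Piece.outs] at n2
    constructor
    · refine B.col_local' [b] hD (by simp [insOf, outsOf, Piece.ins, Piece.outs]) ?_
      intro f hf
      have h1 := hf (Piece.cross s a b b c) (by simp)
      have h2 := B.r1o s h1
      refine ⟨Function.update f b (f a), ?_, ?_⟩
      · intro e he
        rw [Function.update_of_ne (by simpa using he)]
      · simp only [List.mem_cons, List.not_mem_nil, or_false, forall_eq_or_imp, forall_eq, Sat]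
        rw [Function.update_self, Function.update_of_ne n1, Function.update_of_ne (Ne.symm n2)]
        exact ⟨rfl, h2⟩
    · refine B.col_local' [b] hD' (by simp [insOf, outsOf, Piece.ins, Piece.outs]) ?_
      intro f hf
      have h1 : f a = f b := hf (Piece.dot a b) (by simp)
      have h2 : f b = f c := hf (Piece.dot b c) (by simp)
      obtain ⟨v, hv⟩ := B.r1o_ex s (f a)
      refine ⟨Function.update f b v, ?_, ?_⟩
      · intro e he
        rw [Function.update_of_ne (by simpa using he)]
      · simp only [List.mem_cons, List.not_mem_nil, or_false, forall_eq, Sat]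
        rw [Function.update_self, Function.update_of_ne n1, Function.update_of_ne (Ne.symm n2),
          ← h2, ← h1]
        exact hv
  | r1_under s a b c bot top Γ =>
    have e1 : Piece.cross s b c a b :: Γ = [Piece.cross s b c a b] ++ Γ := rfl
    have e2 : Piece.dot a b :: Piece.dot b c :: Γ = [Piece.dot a b, Piece.dot b c] ++ Γ := rfl
    rw [e1] at hD ⊢
    rw [e2] at hD' ⊢
    obtain ⟨n1, n2⟩ := nodup_local hD'
    simp [insOf, Piece.ins] at n1
    simp [outsOf, Piece.outs] at n2
    constructor
    · refine B.col_local' [b] hD (by simp [insOf, outsOf, Piece.ins, Piece.outs]) ?_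
      intro f hf
      have h1 := hf (Piece.cross s b c a b) (by simp)
      have h2 := B.r1u s h1
      refine ⟨Function.update f b (f a), ?_, ?_⟩
      · intro e he
        rw [Function.update_of_ne (by simpa using he)]
      · simp only [List.mem_cons, List.not_mem_nil, or_false, forall_eq_or_imp, forall_eq, Sat]
        rw [Function.update_self, Function.update_of_ne n1, Function.update_of_ne (Ne.symm n2)]
        exact ⟨rfl, h2⟩
    · refine B.col_local' [b] hD' (by simp [insOf, outsOf, Piece.ins, Piece.outs]) ?_
      intro f hf
      have h1 : f a = f b := hf (Piece.dot a b) (by simp)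
      have h2 : f b = f c := hf (Piece.dot b c) (by simp)
      obtain ⟨v, hv⟩ := B.r1u_ex s (f a)
      refine ⟨Function.update f b v, ?_, ?_⟩
      · intro e he
        rw [Function.update_of_ne (by simpa using he)]
      · simp only [List.mem_cons, List.not_mem_nil, or_false, forall_eq, Sat]
        rw [Function.update_self, Function.update_of_ne n1, Function.update_of_ne (Ne.symm n2),
          ← h2, ← h1]
        exact hv
  | r2_parallel s a b e c d f bot top Γ =>
    have e1 : Piece.cross s a b c d :: Piece.cross (!s) b e d f :: Γ =
        [Piece.cross s a b c d, Piece.cross (!s) b e d f] ++ Γ := rfl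
    have e2 : Piece.dot a b :: Piece.dot b e :: Piece.dot c d :: Piece.dot d f :: Γ =
        [Piece.dot a b, Piece.dot b e, Piece.dot c d, Piece.dot d f] ++ Γ := rfl
    rw [e1] at hD ⊢
    rw [e2] at hD' ⊢
    obtain ⟨n1, n2⟩ := nodup_local hD'
    simp only [insOf, List.flatMap_cons, List.flatMap_nil, Piece.ins, List.append_nil,
      List.cons_append, List.nil_append, List.nodup_cons, List.mem_cons, List.not_mem_nil,
      or_false, not_or, not_false_eq_true, List.nodup_nil, and_true] at n1
    simp only [outsOf, List.flatMap_cons, List.flatMap_nil, Piece.outs, List.append_nil,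
      List.cons_append, List.nil_append, List.nodup_cons, List.mem_cons, List.not_mem_nil,
      or_false, not_or, not_false_eq_true, List.nodup_nil, and_true] at n2
    obtain ⟨⟨a1, a2, a3⟩, ⟨a4, a5⟩, a6⟩ := n1
    obtain ⟨⟨c1, c2, c3⟩, ⟨c4, c5⟩, c6⟩ := n2
    -- ins: a b c d ; outs: b e d f
    constructor
    · refine B.col_local' [b, d] hD (by simp [insOf, outsOf, Piece.ins, Piece.outs]) ?_
      intro g hg
      have h1 := hg (Piece.cross s a b c d) (by simp)
      have h2 := hg (Piece.cross (!s) b e d f) (by simp)
      obtain ⟨h3, h4⟩ := B.r2p s h1 h2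
      refine ⟨Function.update (Function.update g b (g a)) d (g c), ?_, ?_⟩
      · intro x hx
        simp only [List.mem_cons, List.not_mem_nil, or_false, not_or] at hx
        rw [Function.update_of_ne hx.2, Function.update_of_ne hx.1]
      · simp only [List.mem_cons, List.not_mem_nil, or_false, forall_eq_or_imp, forall_eq, Sat]
        have k1 : Function.update (Function.update g b (g a)) d (g c) a = g a := by
          rw [Function.update_of_ne a3, Function.update_of_ne a1]
        have k2 : Function.update (Function.update g b (g a)) d (g c) b = g a := by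
          rw [Function.update_of_ne a5, Function.update_self]
        have k3 : Function.update (Function.update g b (g a)) d (g c) e = g e := by
          rw [Function.update_of_ne c4, Function.update_of_ne (Ne.symm c1)]
        have k4 : Function.update (Function.update g b (g a)) d (g c) c = g c := by
          rw [Function.update_of_ne a6, Function.update_of_ne (Ne.symm a4)]
        have k5 : Function.update (Function.update g b (g a)) d (g c) d = g c := by
          rw [Function.update_self]
        have k6 : Function.update (Function.update g b (g a)) d (g c) f = g f := by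
          rw [Function.update_of_ne (Ne.symm c6), Function.update_of_ne (Ne.symm c3)]
        rw [k1, k2, k3, k4, k5, k6]
        exact ⟨rfl, h3, rfl, h4⟩
    · refine B.col_local' [b, d] hD' (by simp [insOf, outsOf, Piece.ins, Piece.outs]) ?_
      intro g hg
      have h1 : g a = g b := hg (Piece.dot a b) (by simp)
      have h2 : g b = g e := hg (Piece.dot b e) (by simp)
      have h3 : g c = g d := hg (Piece.dot c d) (by simp)
      have h4 : g d = g f := hg (Piece.dot d f) (by simp)
      obtain ⟨v, w, hv, hw⟩ := B.r2p_ex s (g a) (g c)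
      refine ⟨Function.update (Function.update g b v) d w, ?_, ?_⟩
      · intro x hx
        simp only [List.mem_cons, List.not_mem_nil, or_false, not_or] at hx
        rw [Function.update_of_ne hx.2, Function.update_of_ne hx.1]
      · simp only [List.mem_cons, List.not_mem_nil, or_false, forall_eq_or_imp, forall_eq, Sat]
        have k1 : Function.update (Function.update g b v) d w a = g a := by
          rw [Function.update_of_ne a3, Function.update_of_ne a1]
        have k2 : Function.update (Function.update g b v) d w b = v := by
          rw [Function.update_of_ne a5, Function.update_self]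
        have k3 : Function.update (Function.update g b v) d w e = g e := by
          rw [Function.update_of_ne c4, Function.update_of_ne (Ne.symm c1)]
        have k4 : Function.update (Function.update g b v) d w c = g c := by
          rw [Function.update_of_ne a6, Function.update_of_ne (Ne.symm a4)]
        have k5 : Function.update (Function.update g b v) d w d = w := by
          rw [Function.update_self]
        have k6 : Function.update (Function.update g b v) d w f = g f := by
          rw [Function.update_of_ne (Ne.symm c6), Function.update_of_ne (Ne.symm c3)]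
        rw [k1, k2, k3, k4, k5, k6, ← h2, ← h1, ← h4, ← h3]
        exact ⟨hv, hw⟩
  | r2_opposite s a b e c d f bot top Γ =>
    have e1 : Piece.cross s a b d f :: Piece.cross (!s) b e c d :: Γ =
        [Piece.cross s a b d f, Piece.cross (!s) b e c d] ++ Γ := rfl
    have e2 : Piece.dot a b :: Piece.dot b e :: Piece.dot c d :: Piece.dot d f :: Γ =
        [Piece.dot a b, Piece.dot b e, Piece.dot c d, Piece.dot d f] ++ Γ := rfl
    rw [e1] at hD ⊢
    rw [e2] at hD' ⊢
    obtain ⟨n1, n2⟩ := nodup_local hD'
    simp only [insOf, List.flatMap_cons, List.flatMap_nil, Piece.ins, List.append_nil,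
      List.cons_append, List.nil_append, List.nodup_cons, List.mem_cons, List.not_mem_nil,
      or_false, not_or, not_false_eq_true, List.nodup_nil, and_true] at n1
    simp only [outsOf, List.flatMap_cons, List.flatMap_nil, Piece.outs, List.append_nil,
      List.cons_append, List.nil_append, List.nodup_cons, List.mem_cons, List.not_mem_nil,
      or_false, not_or, not_false_eq_true, List.nodup_nil, and_true] at n2
    obtain ⟨⟨a1, a2, a3⟩, ⟨a4, a5⟩, a6⟩ := n1
    obtain ⟨⟨c1, c2, c3⟩, ⟨c4, c5⟩, c6⟩ := n2
    constructor
    · refine B.col_local' [b, d] hD (by simp [insOf, outsOf, Piece.ins, Piece.outs]) ?_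
      intro g hg
      have h1 := hg (Piece.cross s a b d f) (by simp)
      have h2 := hg (Piece.cross (!s) b e c d) (by simp)
      obtain ⟨h3, h4⟩ := B.r2o s h1 h2
      refine ⟨Function.update (Function.update g b (g a)) d (g c), ?_, ?_⟩
      · intro x hx
        simp only [List.mem_cons, List.not_mem_nil, or_false, not_or] at hx
        rw [Function.update_of_ne hx.2, Function.update_of_ne hx.1]
      · simp only [List.mem_cons, List.not_mem_nil, or_false, forall_eq_or_imp, forall_eq, Sat]
        have k1 : Function.update (Function.update g b (g a)) d (g c) a = g a := by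
          rw [Function.update_of_ne a3, Function.update_of_ne a1]
        have k2 : Function.update (Function.update g b (g a)) d (g c) b = g a := by
          rw [Function.update_of_ne a5, Function.update_self]
        have k3 : Function.update (Function.update g b (g a)) d (g c) e = g e := by
          rw [Function.update_of_ne c4, Function.update_of_ne (Ne.symm c1)]
        have k4 : Function.update (Function.update g b (g a)) d (g c) c = g c := by
          rw [Function.update_of_ne a6, Function.update_of_ne (Ne.symm a4)]
        have k5 : Function.update (Function.update g b (g a)) d (g c) d = g c := by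
          rw [Function.update_self]
        have k6 : Function.update (Function.update g b (g a)) d (g c) f = g f := by
          rw [Function.update_of_ne (Ne.symm c6), Function.update_of_ne (Ne.symm c3)]
        rw [k1, k2, k3, k4, k5, k6]
        exact ⟨rfl, h3, rfl, h4⟩
    · refine B.col_local' [b, d] hD' (by simp [insOf, outsOf, Piece.ins, Piece.outs]) ?_
      intro g hg
      have h1 : g a = g b := hg (Piece.dot a b) (by simp)
      have h2 : g b = g e := hg (Piece.dot b e) (by simp)
      have h3 : g c = g d := hg (Piece.dot c d) (by simp)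
      have h4 : g d = g f := hg (Piece.dot d f) (by simp)
      obtain ⟨v, w, hv, hw⟩ := B.r2o_ex s (g a) (g c)
      refine ⟨Function.update (Function.update g b v) d w, ?_, ?_⟩
      · intro x hx
        simp only [List.mem_cons, List.not_mem_nil, or_false, not_or] at hx
        rw [Function.update_of_ne hx.2, Function.update_of_ne hx.1]
      · simp only [List.mem_cons, List.not_mem_nil, or_false, forall_eq_or_imp, forall_eq, Sat]
        have k1 : Function.update (Function.update g b v) d w a = g a := by
          rw [Function.update_of_ne a3, Function.update_of_ne a1]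
        have k2 : Function.update (Function.update g b v) d w b = v := by
          rw [Function.update_of_ne a5, Function.update_self]
        have k3 : Function.update (Function.update g b v) d w e = g e := by
          rw [Function.update_of_ne c4, Function.update_of_ne (Ne.symm c1)]
        have k4 : Function.update (Function.update g b v) d w c = g c := by
          rw [Function.update_of_ne a6, Function.update_of_ne (Ne.symm a4)]
        have k5 : Function.update (Function.update g b v) d w d = w := by
          rw [Function.update_self]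
        have k6 : Function.update (Function.update g b v) d w f = g f := by
          rw [Function.update_of_ne (Ne.symm c6), Function.update_of_ne (Ne.symm c3)]
        rw [k1, k2, k3, k4, k5, k6, ← h2, ← h1, ← h4, ← h3]
        exact ⟨hv, hw⟩
  | r3 sa sb sc t₁ t₂ t₃ m₁ m₂ m₃ b₁ b₂ b₃ bot top Γ =>
    exact ⟨B.r3_local sa sb sc true _ _ _ _ _ _ _ _ _ hD,
      B.r3_local sa sb sc false _ _ _ _ _ _ _ _ _ hD'⟩

theorem col_eqv {D D' : StringLinkDiagram n}
    (h : Relation.EqvGen (fun D D' : StringLinkDiagram n => Move D.1 D'.1) D D')
    (x y : Fin n → X) : B.Col D.1 x y ↔ B.Col D'.1 x y := by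
  induction h with
  | rel D D' h => exact B.col_move h D.2 D'.2 x y
  | refl D => exact Iff.rfl
  | symm D D' _ ih => exact ih.symm
  | trans D D' D'' _ _ ih1 ih2 => exact ih1.trans ih2

/-- Equivalent diagrams have the same colourings. -/
theorem col_vSL {D D' : StringLinkDiagram n}
    (h : (Quot.mk _ D : vSL n) = Quot.mk _ D') (x y : Fin n → X) :
    B.Col D.1 x y ↔ B.Col D'.1 x y := B.col_eqv (Quot.eqvGen_exact h) x y

end Bq

end Pool.Agent.H297R3.SL
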