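import Mathlib
import Pool.Agent.H297R3.SL.Moves

set_option autoImplicit false

namespace Pool.Agent.H297R3.SL

open Pool.Agent.Helper718.VB

/-! ### braid diagrams are string link diagrams -/

theorem range_perm {n : ℕ} (i : Fin (n - 1)) :
    (List.range n).Perm ((i : ℕ) :: ((i : ℕ) + 1) ::
      (List.range n).filter fun j => j ≠ (i : ℕ) ∧ j ≠ (i : ℕ) + 1) := by
  rw [List.perm_ext_iff_of_nodup List.nodup_range]
  · intro a
    have := i.2
    simp only [List.mem_range, List.mem_cons, List.mem_filter, decide_eq_true_eq]
    omega
  · simp only [List.nodup_cons, List.mem_cons, List.mem_filter, decide_eq_true_eq]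
    refine ⟨by omega, by omega, List.nodup_range.filter _⟩

/-- The edges at level `k`. -/
def row (n k : ℕ) : List Edge := (List.range n).map fun j => (k, j)

theorem straight_ins (n k i : ℕ) : insOf (straight n k i) =
    ((List.range n).filter fun j => j ≠ i ∧ j ≠ i + 1).map fun j => (k, j) := by
  simp [insOf, straight, List.flatMap_map, Piece.ins, List.flatMap_singleton']
  rw [← List.map_eq_flatMap]

theorem straight_outs (n k i : ℕ) : outsOf (straight n k i) =
    ((List.range n).filter fun j => j ≠ i ∧ j ≠ i + 1).map fun j => (k + 1, j) := by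
  simp [outsOf, straight, List.flatMap_map, Piece.outs, List.flatMap_singleton']
  rw [← List.map_eq_flatMap]

theorem layer_ins {n : ℕ} (k : ℕ) (l : Letter n) : (insOf (layer n k l)).Perm (row n k) := by
  cases l with
  | pos i =>
    have h := (range_perm i).map fun j => ((k, j) : Edge)
    refine List.Perm.trans ?_ h.symm
    have := straight_ins n k i
    simp only [insOf] at this
    simp only [layer, insOf, List.flatMap_cons, Piece.ins, this, List.map_cons]
    exact List.Perm.refl _
  | neg i =>
    have h := (range_perm i).map fun j => ((k, j) : Edge)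
    refine List.Perm.trans ?_ h.symm
    have := straight_ins n k i
    simp only [insOf] at this
    simp only [layer, insOf, List.flatMap_cons, Piece.ins, this, List.map_cons]
    exact List.Perm.swap _ _ _
  | vir i =>
    have h := (range_perm i).map fun j => ((k, j) : Edge)
    refine List.Perm.trans ?_ h.symm
    have := straight_ins n k i
    simp only [insOf] at this
    simp only [layer, insOf, List.flatMap_cons, Piece.ins, this, List.map_cons]
    exact List.Perm.refl _

theorem layer_outs {n : ℕ} (k : ℕ) (l : Letter n) :
    (outsOf (layer n k l)).Perm (row n (k + 1)) := by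
  cases l with
  | pos i =>
    have h := (range_perm i).map fun j => ((k + 1, j) : Edge)
    refine List.Perm.trans ?_ h.symm
    have := straight_outs n k i
    simp only [outsOf] at this
    simp only [layer, outsOf, List.flatMap_cons, Piece.outs, this, List.map_cons]
    exact List.Perm.swap _ _ _
  | neg i =>
    have h := (range_perm i).map fun j => ((k + 1, j) : Edge)
    refine List.Perm.trans ?_ h.symm
    have := straight_outs n k i
    simp only [outsOf] at this
    simp only [layer, outsOf, List.flatMap_cons, Piece.outs, this, List.map_cons]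
    exact List.Perm.refl _
  | vir i =>
    have h := (range_perm i).map fun j => ((k + 1, j) : Edge)
    refine List.Perm.trans ?_ h.symm
    have := straight_outs n k i
    simp only [outsOf] at this
    simp only [layer, outsOf, List.flatMap_cons, Piece.outs, this, List.map_cons]
    exact List.Perm.swap _ _ _

theorem layers_ins {n : ℕ} (w : List (Letter n)) : ∀ k,
    (insOf (layers n k w)).Perm ((List.range' k w.length).flatMap (row n)) := by
  induction w with
  | nil => intro k; simp [layers, insOf]
  | cons l w ih =>
    intro k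
    simp only [layers, Bq.insOf_append, List.length_cons, List.range'_succ, List.flatMap_cons]
    exact (layer_ins k l).append (ih (k + 1))

theorem layers_outs {n : ℕ} (w : List (Letter n)) : ∀ k,
    (outsOf (layers n k w)).Perm ((List.range' (k + 1) w.length).flatMap (row n)) := by
  induction w with
  | nil => intro k; simp [layers, outsOf]
  | cons l w ih =>
    intro k
    simp only [layers, Bq.outsOf_append, List.length_cons, List.range'_succ, List.flatMap_cons]
    exact (layer_outs k l).append (ih (k + 1))

theorem ofFn_row (n k : ℕ) : List.ofFn (fun j : Fin n => ((k, (j : ℕ)) : Edge)) = row n k := by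
  unfold row
  rw [List.ofFn_eq_map, ← List.map_coe_finRange_eq_range, List.map_map]
  rfl

theorem ins_perm {n : ℕ} (w : List (Letter n)) :
    (insOf (braidDiagram w).pieces ++ List.ofFn (braidDiagram w).top).Perm
      ((List.range' 0 (w.length + 1)).flatMap (row n)) := by
  show (insOf (layers n 0 w) ++ List.ofFn fun j : Fin n => ((w.length, (j : ℕ)) : Edge)).Perm _
  rw [ofFn_row, List.range'_concat]
  simp only [List.flatMap_append, List.flatMap_cons, List.flatMap_nil, List.append_nil, one_mul,
    zero_add]
  exact (layers_ins w 0).append_right _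

theorem outs_perm {n : ℕ} (w : List (Letter n)) :
    (outsOf (braidDiagram w).pieces ++ List.ofFn (braidDiagram w).bot).Perm
      ((List.range' 0 (w.length + 1)).flatMap (row n)) := by
  show (outsOf (layers n 0 w) ++ List.ofFn fun j : Fin n => ((0, (j : ℕ)) : Edge)).Perm _
  rw [ofFn_row, List.range'_succ, List.flatMap_cons]
  exact ((layers_outs w 0).append_right _).trans List.perm_append_comm

theorem braid_nodup {n : ℕ} (w : List (Letter n)) :
    (insOf (braidDiagram w).pieces ++ List.ofFn (braidDiagram w).top).Nodup := by
  refine (ins_perm w).nodup_iff.mpr ?_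
  have : (List.range' 0 (w.length + 1)).flatMap (row n) =
      (List.range' 0 (w.length + 1)).product (List.range n) := rfl
  rw [this]
  exact List.Nodup.product List.nodup_range' List.nodup_range

theorem mem_straight {n k i : ℕ} {p : Piece} :
    p ∈ straight n k i ↔ ∃ j, j < n ∧ j ≠ i ∧ j ≠ i + 1 ∧ Piece.dot (k, j) (k + 1, j) = p := by
  simp only [straight, List.mem_map, List.mem_filter, List.mem_range, decide_eq_true_eq]
  constructor
  · rintro ⟨j, ⟨h1, h2, h3⟩, h4⟩
    exact ⟨j, h1, h2, h3, h4⟩
  · rintro ⟨j, h1, h2, h3, h4⟩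
    exact ⟨j, ⟨h1, h2, h3⟩, h4⟩

/-- the permutation of a letter -/
def Letter.perm {n : ℕ} : Letter n → Equiv.Perm (Fin n)
  | pos i => Equiv.swap (posL i) (posR i)
  | neg i => Equiv.swap (posL i) (posR i)
  | vir i => Equiv.swap (posL i) (posR i)

theorem permHom_sig {n : ℕ} (i : Fin (n - 1)) : permHom n (sig i) = Equiv.swap (posL i) (posR i) := by
  unfold permHom sig
  rw [PresentedGroup.toGroup.of]
  rfl

theorem permHom_rh {n : ℕ} (i : Fin (n - 1)) : permHom n (rh i) = Equiv.swap (posL i) (posR i) := by
  unfold permHom rh
  rw [PresentedGroup.toGroup.of]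
  rfl

theorem permHom_val {n : ℕ} (l : Letter n) : permHom n l.val = l.perm := by
  cases l with
  | pos i => exact permHom_sig i
  | neg i =>
    show permHom n (sig i)⁻¹ = _
    rw [map_inv, permHom_sig, Equiv.swap_inv]
    rfl
  | vir i => exact permHom_rh i

theorem perm_inv {n : ℕ} (l : Letter n) : (l.perm)⁻¹ = l.perm := by
  cases l <;> exact Equiv.swap_inv _ _

theorem next_layer {n : ℕ} (k : ℕ) (l : Letter n) (j : Fin n) :
    Next (layer n k l) (k, (j : ℕ)) (k + 1, (l.perm j : ℕ)) := by
  have hst : ∀ i : Fin (n - 1), ∀ j : Fin n, j ≠ posL i → j ≠ posR i →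
      Piece.dot (k, (j : ℕ)) (k + 1, (j : ℕ)) ∈ straight n k i := by
    intro i j h1 h2
    exact mem_straight.mpr ⟨j, j.2, fun h => h1 (Fin.ext h), fun h => h2 (Fin.ext h), rfl⟩
  cases l with
  | pos i =>
    show Next _ _ (k + 1, (Equiv.swap (posL i) (posR i) j : ℕ))
    by_cases h1 : j = posL i
    · subst h1
      rw [Equiv.swap_apply_left]
      exact ⟨_, List.mem_cons_self .., List.mem_cons_self ..⟩
    by_cases h2 : j = posR i
    · subst h2
      rw [Equiv.swap_apply_right]
      exact ⟨_, List.mem_cons_self .., List.mem_cons_of_mem _ (List.mem_cons_self ..)⟩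
    rw [Equiv.swap_apply_of_ne_of_ne h1 h2]
    exact ⟨_, List.mem_cons_of_mem _ (hst i j h1 h2), List.mem_cons_self ..⟩
  | neg i =>
    show Next _ _ (k + 1, (Equiv.swap (posL i) (posR i) j : ℕ))
    by_cases h1 : j = posL i
    · subst h1
      rw [Equiv.swap_apply_left]
      exact ⟨_, List.mem_cons_self .., List.mem_cons_of_mem _ (List.mem_cons_self ..)⟩
    by_cases h2 : j = posR i
    · subst h2
      rw [Equiv.swap_apply_right]
      exact ⟨_, List.mem_cons_self .., List.mem_cons_self ..⟩
    rw [Equiv.swap_apply_of_ne_of_ne h1 h2]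
    exact ⟨_, List.mem_cons_of_mem _ (hst i j h1 h2), List.mem_cons_self ..⟩
  | vir i =>
    show Next _ _ (k + 1, (Equiv.swap (posL i) (posR i) j : ℕ))
    by_cases h1 : j = posL i
    · subst h1
      rw [Equiv.swap_apply_left]
      exact ⟨_, List.mem_cons_self .., List.mem_cons_self ..⟩
    by_cases h2 : j = posR i
    · subst h2
      rw [Equiv.swap_apply_right]
      exact ⟨_, List.mem_cons_of_mem _ (List.mem_cons_self ..), List.mem_cons_self ..⟩
    rw [Equiv.swap_apply_of_ne_of_ne h1 h2]
    exact ⟨_, List.mem_cons_of_mem _ (List.mem_cons_of_mem _ (hst i j h1 h2)),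
      List.mem_cons_self ..⟩

theorem next_mono {D D' : List Piece} (h : ∀ p ∈ D, p ∈ D') {a b : Edge} (hn : Next D a b) :
    Next D' a b := by
  obtain ⟨p, hp, h1⟩ := hn
  exact ⟨p, h p hp, h1⟩

theorem path_mono {D D' : List Piece} (h : ∀ p ∈ D, p ∈ D') {a b : Edge}
    (hn : Relation.ReflTransGen (Next D) a b) : Relation.ReflTransGen (Next D') a b := by
  induction hn with
  | refl => exact Relation.ReflTransGen.refl
  | tail _ h2 ih => exact ih.tail (next_mono h h2)

theorem toVB_cons {n : ℕ} (l : Letter n) (w : List (Letter n)) :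
    toVB (l :: w) = l.val * toVB w := by
  unfold toVB
  rw [List.map_cons, List.prod_cons]

theorem path_layers {n : ℕ} (w : List (Letter n)) : ∀ (k : ℕ) (j : Fin n),
    Relation.ReflTransGen (Next (layers n k w)) (k, (j : ℕ))
      (k + w.length, ((permHom n (toVB w))⁻¹ j : ℕ)) := by
  induction w with
  | nil =>
    intro k j
    have : toVB ([] : List (Letter n)) = 1 := rfl
    rw [this, map_one, inv_one]
    exact Relation.ReflTransGen.refl
  | cons l w ih =>
    intro k j
    have h1 : Next (layers n k (l :: w)) (k, (j : ℕ)) (k + 1, (l.perm j : ℕ)) :=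
      next_mono (fun p hp => List.mem_append_left _ hp) (next_layer k l j)
    have h2 := path_mono (D' := layers n k (l :: w)) (fun p hp => List.mem_append_right _ hp)
      (ih (k + 1) (l.perm j))
    refine Relation.ReflTransGen.head h1 ?_
    have e1 : k + (l :: w).length = k + 1 + w.length := by simp; ring
    have e2 : (permHom n (toVB (l :: w)))⁻¹ j = (permHom n (toVB w))⁻¹ (l.perm j) := by
      rw [toVB_cons, map_mul, permHom_val, mul_inv_rev, Equiv.Perm.mul_apply, perm_inv]
    rw [e1, e2]
    exact h2

theorem path_exists {n : ℕ} (w : List (Letter n)) : ∀ (k t : ℕ), t ≤ w.length → ∀ j : Fin n,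
    ∃ i : Fin n, Relation.ReflTransGen (Next (layers n k w)) (k, (i : ℕ)) (k + t, (j : ℕ)) := by
  induction w with
  | nil =>
    intro k t ht j
    have : t = 0 := by simpa using ht
    subst this
    exact ⟨j, Relation.ReflTransGen.refl⟩
  | cons l w ih =>
    intro k t ht j
    cases t with
    | zero => exact ⟨j, Relation.ReflTransGen.refl⟩
    | succ t =>
      obtain ⟨i, hi⟩ := ih (k + 1) t (by simpa using ht) j
      refine ⟨l.perm i, ?_⟩
      have h1 : Next (layers n k (l :: w)) (k, (l.perm i : ℕ)) (k + 1, (i : ℕ)) := by
        have h0 : l.perm (l.perm i) = i := by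
          cases l <;> exact Equiv.swap_apply_self _ _ _
        have h3 := next_layer k l (l.perm i)
        rw [h0] at h3
        exact next_mono (fun p hp => List.mem_append_left _ hp) h3
      refine Relation.ReflTransGen.head h1 ?_
      have e1 : k + (t + 1) = k + 1 + t := by ring
      rw [e1]
      exact path_mono (fun p hp => List.mem_append_right _ hp) hi

/-- The diagram of a word which represents a pure braid is a string link diagram. -/
theorem braid_isStringLink {n : ℕ} (w : List (Letter n)) (hw : toVB w ∈ vP n) :
    IsStringLink (braidDiagram w) := by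
  refine ⟨braid_nodup w, (ins_perm w).trans (outs_perm w).symm, ?_, ?_⟩
  · intro j
    have h := path_layers w 0 j
    have h1 : permHom n (toVB w) = 1 := hw
    rw [h1, inv_one, zero_add] at h
    exact h
  · intro e he
    have h1 := (ins_perm w).mem_iff.mp he
    obtain ⟨t, ht, h2⟩ := List.mem_flatMap.mp h1
    obtain ⟨j, hj, rfl⟩ := List.mem_map.mp h2
    rw [List.mem_range] at hj
    rw [List.mem_range'_1] at ht
    obtain ⟨i, hi⟩ := path_exists w 0 t (by omega) ⟨j, hj⟩
    rw [zero_add] at hi
    exact ⟨i, hi⟩

/-! ### colourings of braid diagrams -/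

/-- the biquandle of a birack -/
structure Compat {X : Type} (B : Bq X) (R : Birack X) : Prop where
  eq : ∀ u v, R.S (u, v) = (B.A u v, B.C u v)

/-- the colours at level `k` -/
def level {X : Type} (n : ℕ) (f : Edge → X) (k : ℕ) : Fin n → X := fun j => f (k, j)

theorem straight_ok {X : Type} {B : Bq X} {n k : ℕ} (i : Fin (n - 1)) (f : Edge → X) :
    (∀ p ∈ straight n k i, B.Sat f p) ↔
      ∀ j : Fin n, j ≠ posL i → j ≠ posR i → level n f k j = level n f (k + 1) j := by
  constructor
  · intro h j h1 h2
    exact h (Piece.dot (k, j) (k + 1, j)) (mem_straight.mpr ⟨j, j.2,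
      fun h' => h1 (Fin.ext h'), fun h' => h2 (Fin.ext h'), rfl⟩)
  · intro h p hp
    obtain ⟨j, h1, h2, h3, rfl⟩ := mem_straight.mp hp
    exact h ⟨j, h1⟩ (fun h' => h2 (congrArg Fin.val h')) (fun h' => h3 (congrArg Fin.val h'))

theorem posLR {n : ℕ} (i : Fin (n - 1)) : posL i ≠ posR i := by
  intro h; have := congrArg Fin.val h; simp [posL, posR] at this

theorem eq_applyS {X : Type} {R : Birack X} {n : ℕ} (i : Fin (n - 1)) (x y : Fin n → X) :
    y = applyS R i x ↔ y (posL i) = (R.S (x (posL i), x (posR i))).1 ∧
      y (posR i) = (R.S (x (posL i), x (posR i))).2 ∧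
        ∀ j, j ≠ posL i → j ≠ posR i → y j = x j := by
  constructor
  · rintro rfl
    refine ⟨?_, ?_, ?_⟩
    · unfold applyS
      rw [Function.update_of_ne (posLR i), Function.update_self]
    · unfold applyS
      rw [Function.update_self]
    · intro j h1 h2
      unfold applyS
      rw [Function.update_of_ne h2, Function.update_of_ne h1]
  · rintro ⟨h1, h2, h3⟩
    funext j
    unfold applyS
    by_cases hR : j = posR i
    · subst hR
      rw [Function.update_self]
      exact h2
    by_cases hL : j = posL i
    · subst hL
      rw [Function.update_of_ne (posLR i), Function.update_self]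
      exact h1
    rw [Function.update_of_ne hR, Function.update_of_ne hL]
    exact h3 j hL hR

theorem eq_applyR {X : Type} {n : ℕ} (i : Fin (n - 1)) (x y : Fin n → X) :
    y = applyR i x ↔ y (posL i) = x (posR i) ∧ y (posR i) = x (posL i) ∧
        ∀ j, j ≠ posL i → j ≠ posR i → y j = x j := by
  constructor
  · rintro rfl
    refine ⟨?_, ?_, ?_⟩
    · unfold applyR
      rw [Equiv.swap_apply_left]
    · unfold applyR
      rw [Equiv.swap_apply_right]
    · intro j h1 h2
      unfold applyR
      rw [Equiv.swap_apply_of_ne_of_ne h1 h2]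
  · rintro ⟨h1, h2, h3⟩
    funext j
    unfold applyR
    by_cases hR : j = posR i
    · subst hR
      rw [Equiv.swap_apply_right]
      exact h2
    by_cases hL : j = posL i
    · subst hL
      rw [Equiv.swap_apply_left]
      exact h1
    rw [Equiv.swap_apply_of_ne_of_ne hL hR]
    exact h3 j hL hR

section

variable {X : Type} {B : Bq X} {R : Birack X} (hBR : Compat B R) {n : ℕ}
  (φ : VB n →* Equiv.Perm (Fin n → X))
  (hs : ∀ (i : Fin (n - 1)) (x : Fin n → X), φ (sig i) x = applyS R i x)
  (hr : ∀ (i : Fin (n - 1)) (x : Fin n → X), φ (rh i) x = applyR i x)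

include hBR hs hr

theorem layer_ok (k : ℕ) (l : Letter n) (f : Edge → X) :
    (∀ p ∈ layer n k l, B.Sat f p) ↔ level n f k = φ l.val (level n f (k + 1)) := by
  cases l with
  | pos i =>
    show _ ↔ level n f k = φ (sig i) (level n f (k + 1))
    rw [hs, eq_applyS, hBR.eq]
    simp only [layer, List.mem_cons, forall_eq_or_imp, straight_ok]
    constructor
    · rintro ⟨⟨h1, h2⟩, h3⟩
      exact ⟨h1.symm, h2.symm, h3⟩
    · rintro ⟨h1, h2, h3⟩
      exact ⟨⟨h1.symm, h2.symm⟩, h3⟩
  | neg i =>
    show _ ↔ level n f k = φ (sig i)⁻¹ (level n f (k + 1))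
    rw [map_inv, Equiv.Perm.eq_inv_iff_eq, hs]
    have e : (applyS R i (level n f k) = level n f (k + 1)) ↔
        (level n f (k + 1) = applyS R i (level n f k)) := eq_comm
    rw [e, eq_applyS, hBR.eq]
    simp only [layer, List.mem_cons, forall_eq_or_imp, straight_ok]
    constructor
    · rintro ⟨⟨h1, h2⟩, h3⟩
      exact ⟨h1.symm, h2.symm, fun j a b => (h3 j a b).symm⟩
    · rintro ⟨h1, h2, h3⟩
      exact ⟨⟨h1.symm, h2.symm⟩, fun j a b => (h3 j a b).symm⟩
  | vir i =>
    show _ ↔ level n f k = φ (rh i) (level n f (k + 1))
    rw [hr, eq_applyR]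
    simp only [layer, List.mem_cons, forall_eq_or_imp, straight_ok]
    exact Iff.rfl

theorem layers_unique (f : Edge → X) (w : List (Letter n)) : ∀ k,
    (∀ p ∈ layers n k w, B.Sat f p) → level n f k = φ (toVB w) (level n f (k + w.length)) := by
  induction w with
  | nil =>
    intro k _
    have : toVB ([] : List (Letter n)) = 1 := rfl
    rw [this, map_one]
    rfl
  | cons l w ih =>
    intro k h
    have h1 := (layer_ok hBR φ hs hr k l f).mp fun p hp => h p (List.mem_append_left _ hp)
    have h2 := ih (k + 1) fun p hp => h p (List.mem_append_right _ hp)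
    have e1 : k + (l :: w).length = k + 1 + w.length := by simp; ring
    rw [toVB_cons, map_mul, Equiv.Perm.mul_apply, e1, ← h2]
    exact h1

theorem layers_exists (f : Edge → X) (y : Fin n → X) (w : List (Letter n)) : ∀ k,
    (∀ m, m ≤ w.length → level n f (k + m) = φ (toVB (w.drop m)) y) →
      ∀ p ∈ layers n k w, B.Sat f p := by
  induction w with
  | nil => intro k _ p hp; simp [layers] at hp
  | cons l w ih =>
    intro k h p hp
    have h0 := h 0 (by simp)
    have h1 := h 1 (by simp)
    rw [add_zero, List.drop_zero, toVB_cons, map_mul, Equiv.Perm.mul_apply] at h0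
    rw [List.drop_succ_cons, List.drop_zero] at h1
    rw [← h1] at h0
    rcases List.mem_append.mp hp with hp | hp
    · exact (layer_ok hBR φ hs hr k l f).mpr h0 p hp
    · refine ih (k + 1) ?_ p hp
      intro m hm
      have := h (m + 1) (by simpa using hm)
      rw [List.drop_succ_cons] at this
      rw [← this]
      congr 1
      ring

/-- The colourings of the diagram of a braid word. -/
theorem col_braid [Inhabited X] (w : List (Letter n)) (x y : Fin n → X) :
    B.Col (braidDiagram w) x y ↔ x = φ (toVB w) y := by
  constructor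
  · rintro ⟨f, h1, h2, h3⟩
    have h := layers_unique hBR φ hs hr f w 0 h1
    have e1 : level n f 0 = x := funext h2
    have e2 : level n f (0 + w.length) = y := by
      rw [zero_add]
      exact funext h3
    rw [e1, e2] at h
    exact h
  · rintro rfl
    let f : Edge → X := fun e => if h : e.2 < n then φ (toVB (w.drop e.1)) y ⟨e.2, h⟩
      else default
    have hf : ∀ k, level n f k = φ (toVB (w.drop k)) y := by
      intro k
      funext j
      exact dif_pos j.2
    refine ⟨f, ?_, ?_, ?_⟩
    · refine layers_exists hBR φ hs hr f y w 0 ?_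
      intro m _
      rw [zero_add]
      exact hf m
    · intro j
      exact congrFun (hf 0) j
    · intro j
      have h := congrFun (hf w.length) j
      rw [List.drop_length] at h
      have e : toVB ([] : List (Letter n)) = 1 := rfl
      rw [e, map_one] at h
      exact h

end

end Pool.Agent.H297R3.SL
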