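import Mathlib
import Pool.Agent.H297R3.SL.Braid
import Pool.Agent.Helper718.VB.Final

set_option autoImplicit false

namespace Pool.Agent.H297R3.SL

open Pool.Agent.Helper718.VB

/-- The biquandle of an extension of a braided structure. -/
def bqOfExt {B : BFG} {A : Y → Y → Y} (hA : Ext B A) : Bq Y where
  A := A
  C := Cc A
  A_inj := by
    intro u y z h
    have h2 : A u⁻¹ (A u y) = A u⁻¹ (A u z) := congrArg _ h
    rwa [← hA.mul_left, ← hA.mul_left, inv_mul_cancel, hA.one_left, hA.one_left] at h2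
  A_surj := by
    intro u y
    refine ⟨A u⁻¹ y, ?_⟩
    rw [← hA.mul_left, mul_inv_cancel, hA.one_left]
  C_inj := by
    intro v y z h
    have h2 : Cc A (Cc A y v) v⁻¹ = Cc A (Cc A z v) v⁻¹ := congrArg (fun t => Cc A t v⁻¹) h
    rwa [← Cc_mul hA, ← Cc_mul hA, mul_inv_cancel, Cc_one hA, Cc_one hA] at h2
  C_surj := by
    intro v y
    refine ⟨Cc A y v⁻¹, ?_⟩
    show Cc A (Cc A y v⁻¹) v = y
    rw [← Cc_mul hA, inv_mul_cancel, Cc_one hA]
  S_inj := by
    intro u v u' v' h1 h2
    obtain ⟨R, hR⟩ := birack_of_ext hA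
    have h3 : R.S (u, v) = R.S (u', v') := by
      rw [hR, hR, h1, h2]
    have h4 := R.invertible.1 h3
    exact ⟨congrArg Prod.fst h4, congrArg Prod.snd h4⟩
  S_surj := by
    intro p q
    obtain ⟨R, hR⟩ := birack_of_ext hA
    obtain ⟨⟨u, v⟩, h⟩ := R.invertible.2 (p, q)
    rw [hR] at h
    exact ⟨u, v, congrArg Prod.fst h, congrArg Prod.snd h⟩
  y1 := by
    intro a b c
    obtain ⟨R, hR⟩ := birack_of_ext hA
    have h := R.yang_baxter (a, b, c)
    simp only [on12, on23, hR] at h
    exact congrArg Prod.fst h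
  y2 := by
    intro a b c
    obtain ⟨R, hR⟩ := birack_of_ext hA
    have h := R.yang_baxter (a, b, c)
    simp only [on12, on23, hR] at h
    exact congrArg (fun t => t.2.1) h
  y3 := by
    intro a b c
    obtain ⟨R, hR⟩ := birack_of_ext hA
    have h := R.yang_baxter (a, b, c)
    simp only [on12, on23, hR] at h
    exact congrArg (fun t => t.2.2) h
  r1 := by
    intro u v
    unfold Cc
    constructor
    · intro h
      rw [h]; group
    · intro h
      have h1 : u * v = A u v * v := by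
        rw [mul_assoc, inv_mul_eq_iff_eq_mul] at h
        exact h
      exact (mul_right_cancel h1).symm

/-- There is a biquandle whose birack gives a faithful action. -/
theorem exists_faithful_bq (n : ℕ) (hn : 2 ≤ n) : ∃ (X : Type) (_ : Inhabited X) (B : Bq X)
    (R : Birack X) (_ : Compat B R) (φ : VB n →* Equiv.Perm (Fin n → X)),
      (∀ (i : Fin (n - 1)) (x : Fin n → X), φ (sig i) x = applyS R i x) ∧
      (∀ (i : Fin (n - 1)) (x : Fin n → X), φ (rh i) x = applyR i x) ∧
      Function.Injective φ := by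
  obtain ⟨B⟩ := VB5.exists_bfg
  obtain ⟨A, h1, h2, h3, h4, h5, h6⟩ := VB6.exists_extension B
  have hA : Ext B A := ⟨h1, h2, h3, h4, h5, h6⟩
  obtain ⟨R, hR⟩ := birack_of_ext hA
  obtain ⟨φ, hs, hr⟩ := VB1.exists_action R n
  exact ⟨Y, ⟨1⟩, bqOfExt hA, R, ⟨hR⟩, φ, hs, hr, faithful_of_ext hA hR hn φ hs hr⟩

theorem list_empty {n : ℕ} (hn : ¬ 2 ≤ n) (w : List (Letter n)) : w = [] := by
  cases w with
  | nil => rfl
  | cons l w =>
    exfalso
    cases l with
    | pos i => have := i.2; omega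
    | neg i => have := i.2; omega
    | vir i => have := i.2; omega

theorem injective_words (n : ℕ) (w w' : List (Letter n)) (hw : toVB w ∈ vP n)
    (hw' : toVB w' ∈ vP n)
    (h : (Quot.mk _ ⟨braidDiagram w, braid_isStringLink w hw⟩ : vSL n) =
      Quot.mk _ ⟨braidDiagram w', braid_isStringLink w' hw'⟩) : toVB w = toVB w' := by
  by_cases hn : 2 ≤ n
  · obtain ⟨X, _, B, R, hBR, φ, hs, hr, hφ⟩ := exists_faithful_bq n hn
    apply hφ
    ext1 y
    have h1 := (B.col_vSL h (φ (toVB w) y) y).mp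
      ((col_braid hBR φ hs hr w _ _).mpr rfl)
    exact (col_braid hBR φ hs hr w' _ _).mp h1
  · rw [list_empty hn w, list_empty hn w']

end Pool.Agent.H297R3.SL
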